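import Pool.Agent.HEC.Stmts

/-!
# Row DLB of squad HEC: lower bound for the determinant of the reduced Laplacian
-/

set_option autoImplicit false

namespace Pool.Agent.HEC.H41

open Matrix Finset Pool.Agent.HEC

section

variable {V E : Type} [Fintype V] (s t : E → V) (o : V)

open Classical in
/-- extension by zero at the root -/
noncomputable def ex (p : Idx o → ℝ) (v : V) : ℝ := if h : v ≠ o then p (⟨v, h⟩ : {v : V // v ≠ o}) else 0

omit [Fintype V] in
theorem ex_root (p : Idx o → ℝ) : ex o p o = 0 := by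
  classical
  unfold ex
  rw [dif_neg (fun h => h rfl)]

omit [Fintype V] in
theorem ex_val (p : Idx o → ℝ) (i : Idx o) : ex o p i.val = p i := by
  classical
  unfold ex
  have h : i.val ≠ o := Subtype.property i
  rw [dif_pos h]
  rfl

open Classical in
theorem sum_ite_val (p : Idx o → ℝ) (v : V) :
    ∑ i : Idx o, (if v = i.val then (1 : ℝ) else 0) * p i = ex o p v := by
  by_cases h : v = o
  · subst h
    rw [ex_root]
    refine Finset.sum_eq_zero fun i _ => ?_
    have h' : v ≠ i.val := (Subtype.property i : i.val ≠ v).symm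
    rw [if_neg h', zero_mul]
  · let i₀ : Idx o := (⟨v, h⟩ : {v : V // v ≠ o})
    have hi₀ : i₀.val = v := rfl
    rw [Finset.sum_eq_single i₀]
    · rw [if_pos hi₀.symm, one_mul, ← ex_val o p i₀, hi₀]
    · intro i _ hi
      have h' : v ≠ i.val := by
        intro h1
        exact hi (Subtype.ext h1.symm)
      rw [if_neg h', zero_mul]
    · intro h1
      exact absurd (Finset.mem_univ _) h1

theorem chi_dot (e : E) (p : Idx o → ℝ) :
    chi s t o e ⬝ᵥ p = ex o p (s e) - ex o p (t e) := by
  classical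
  unfold dotProduct chi
  rw [← sum_ite_val o p (s e), ← sum_ite_val o p (t e), ← Finset.sum_sub_distrib]
  refine Finset.sum_congr rfl fun i _ => ?_
  ring

theorem card_idx : Fintype.card (Idx o) + 1 = Fintype.card V := by
  classical
  have h1 : Fintype.card (Idx o) = Fintype.card {v : V // v ≠ o} :=
    Fintype.card_congr (Equiv.refl _)
  have h2 : Fintype.card {v : V // v ≠ o} = Fintype.card V - 1 := Set.card_ne_eq o
  have h3 : 0 < Fintype.card V := Fintype.card_pos_iff.mpr ⟨o⟩
  rw [h1, h2]
  omega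

end

theorem psd_term {I : Type} [Fintype I] (x : I → ℝ) {a : ℝ} (ha : 0 ≤ a) :
    (a • vecMulVec x x).PosSemidef := by
  have h := posSemidef_vecMulVec_self_star x
  rw [star_trivial] at h
  exact h.smul ha

theorem dlb (hR : Rk1Stmt) : DlbStmt := by
  intro V E _ _ s t o T c hc hT hconn
  classical
  have hcard : Fintype.card (Idx o) = Fintype.card T := by
    have := card_idx o
    rw [Fintype.card_coe]
    omega
  let φ : Idx o ≃ T := Fintype.equivOfCardEq hcard
  let Bz : Matrix (Idx o) (Idx o) ℤ := fun i j =>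
    (if s (φ i : E) = j.val then 1 else 0) - (if t (φ i : E) = j.val then 1 else 0)
  let B : Matrix (Idx o) (Idx o) ℝ := fun i => chi s t o (φ i : E)
  have hB : B = Bz.map (fun z : ℤ => (z : ℝ)) := by
    ext i j
    simp only [B, Bz, chi, Matrix.map_apply, Int.cast_sub, Int.cast_ite, Int.cast_one, Int.cast_zero]
  have hker : ∀ p : Idx o → ℝ, B *ᵥ p = 0 → p = 0 := by
    intro p hp
    have h1 : ∀ e ∈ T, ex o p (s e) = ex o p (t e) := by
      intro e he
      have h2 := congrFun hp (φ.symm ⟨e, he⟩)
      have h3 : (B *ᵥ p) (φ.symm ⟨e, he⟩) = chi s t o e ⬝ᵥ p := by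
        show chi s t o ((φ (φ.symm ⟨e, he⟩)) : E) ⬝ᵥ p = _
        rw [Equiv.apply_symm_apply]
      rw [h3, chi_dot] at h2
      exact sub_eq_zero.mp h2
    have h2 := hconn (ex o p) h1
    funext i
    rw [← ex_val o p i, h2 i.val o, ex_root]
    rfl
  have hinj : Function.Injective B.mulVec := by
    intro p q hpq
    have h1 : B *ᵥ (p - q) = 0 := by
      rw [Matrix.mulVec_sub]
      exact sub_eq_zero.mpr hpq
    exact sub_eq_zero.mp (hker _ h1)
  have hdet0 : B.det ≠ 0 := by
    intro h
    obtain ⟨v, hv, hv0⟩ := Matrix.exists_mulVec_eq_zero_iff.mpr h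
    exact hv (hker v hv0)
  have hdet1 : 1 ≤ B.det ^ 2 := by
    have h1 : B.det = ((Bz.det : ℤ) : ℝ) := by
      rw [hB, Int.cast_det]
    rw [h1] at hdet0 ⊢
    have h2 : Bz.det ≠ 0 := by
      intro h
      exact hdet0 (by rw [h, Int.cast_zero])
    have h3 : 1 ≤ Bz.det ^ 2 := by
      have := Int.one_le_abs h2
      rw [← sq_abs]
      nlinarith
    exact_mod_cast h3
  -- the Laplacian of the tree
  have hLT : ∑ e ∈ T, c e • vecMulVec (chi s t o e) (chi s t o e) =
      Bᴴ * diagonal (fun i => c (φ i : E)) * B := by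
    rw [← Finset.sum_coe_sort T, ← Equiv.sum_comp φ]
    ext j k
    rw [Matrix.sum_apply, Matrix.mul_apply]
    refine Finset.sum_congr rfl fun i _ => ?_
    rw [Matrix.mul_diagonal, Matrix.conjTranspose_apply, Matrix.smul_apply, vecMulVec_apply,
      smul_eq_mul, star_trivial]
    show c (φ i : E) * (B i j * B i k) = B i j * c (φ i : E) * B i k
    ring
  have hP0 : (∑ e ∈ T, c e • vecMulVec (chi s t o e) (chi s t o e)).PosDef := by
    rw [hLT]
    exact (PosDef.diagonal fun i => hc _).conjTranspose_mul_mul_same hinj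
  have hD0 : ∏ e ∈ T, c e ≤ (∑ e ∈ T, c e • vecMulVec (chi s t o e) (chi s t o e)).det := by
    rw [hLT, det_mul, det_mul, det_diagonal, det_conjTranspose, star_trivial]
    have h1 : ∏ i, c (φ i : E) = ∏ e ∈ T, c e := by
      rw [← Finset.prod_coe_sort T, ← Equiv.prod_comp φ]
    rw [h1]
    have h2 : 0 ≤ ∏ e ∈ T, c e := Finset.prod_nonneg fun e _ => (hc e).le
    nlinarith
  -- adding the other edges
  have hind : ∀ S : Finset E, Disjoint S T →
      (∑ e ∈ S ∪ T, c e • vecMulVec (chi s t o e) (chi s t o e)).PosDef ∧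
        ∏ e ∈ T, c e ≤ (∑ e ∈ S ∪ T, c e • vecMulVec (chi s t o e) (chi s t o e)).det := by
    intro S
    induction S using Finset.induction_on with
    | empty =>
      intro _
      rw [Finset.empty_union]
      exact ⟨hP0, hD0⟩
    | insert a S ha ih =>
      intro hd
      rw [Finset.disjoint_insert_left] at hd
      obtain ⟨h1, h2⟩ := ih hd.2
      have h3 : a ∉ S ∪ T := by
        rw [Finset.mem_union]
        rintro (h | h)
        · exact ha h
        · exact hd.1 h
      rw [Finset.insert_union, Finset.sum_insert h3, add_comm]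
      obtain ⟨h4, h5⟩ := hR (Idx o) _ (chi s t o a) (c a) h1
      refine ⟨h1.add_posSemidef (psd_term _ (hc a).le), ?_⟩
      rw [h4]
      have h6 : 0 ≤ c a * (chi s t o a ⬝ᵥ
          ((∑ e ∈ S ∪ T, c e • vecMulVec (chi s t o e) (chi s t o e))⁻¹ *ᵥ chi s t o a)) :=
        mul_nonneg (hc a).le h5
      have h7 : 0 ≤ ∏ e ∈ T, c e := Finset.prod_nonneg fun e _ => (hc e).le
      nlinarith
  have h1 := hind Tᶜ (disjoint_compl_left)
  have h2 : Tᶜ ∪ T = (Finset.univ : Finset E) := by
    rw [Finset.union_comm]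
    exact Finset.union_compl T
  rw [h2] at h1
  exact h1

end Pool.Agent.HEC.H41
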