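import Pool.Agent.HEC.Stmts

/-!
# Row RES of squad HEC: residues modulo 18 for 16 classes
-/

set_option autoImplicit false

namespace Pool.Agent.HEC.H41

open Matrix Finset Pool.Agent.HEC

/-- the number of a class relative to the class `k` -/
def cod (k κ : Bool × Bool × Bool) : ℕ :=
  if κ = k then 0 else
    (if κ.1 = k.1 then 0 else 4) + (if κ.2.1 = k.2.1 then 0 else 2) +
      (if κ.2.2 = k.2.2 then 0 else 1) + 1

theorem cod_self : ∀ k : Bool × Bool × Bool, cod k k = 0 := by decide

theorem cod_bd : ∀ k κ : Bool × Bool × Bool, κ ≠ k → 2 ≤ cod k κ ∧ cod k κ ≤ 8 := by decide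

theorem cod_inj : ∀ k κ κ' : Bool × Bool × Bool, κ ≠ κ' → cod k κ ≠ cod k κ' := by decide

theorem side {V : Type} [Fintype V] (p t2 t3 t4 : V → Bool) (a : V → ℤ)
    (hp : 136 ≤ (univ.filter fun v => p v = true).card) :
    ∃ c : V → ℤ, (∀ v, 0 ≤ c v ∧ c v ≤ 8) ∧
      (∀ u v, p u = true → p v = true → ¬ (t2 u = t2 v ∧ t3 u = t3 v ∧ t4 u = t4 v) → c u ≠ c v) ∧
      (18 : ℤ) ∣ ∑ v, (if p v = true then c v - a v else 0) := by
  classical
  let cls : V → Bool × Bool × Bool := fun v => (t2 v, t3 v, t4 v)
  obtain ⟨k, -, hk⟩ := Finset.exists_le_card_fiber_of_mul_le_card_of_maps_to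
    (s := univ.filter fun v => p v = true) (t := (univ : Finset (Bool × Bool × Bool))) (f := cls)
    (n := 17) (fun _ _ => mem_univ _) univ_nonempty (by simpa using hp)
  let T : ℤ := ∑ v, (if p v = true then (cod k (cls v) : ℤ) - a v else 0)
  have hq0 : 0 ≤ (-T) % 18 := Int.emod_nonneg _ (by norm_num)
  have hq1 : (-T) % 18 < 18 := Int.emod_lt_of_pos _ (by norm_num)
  obtain ⟨q, hq⟩ := Int.eq_ofNat_of_zero_le hq0
  have hq17 : q ≤ 17 := by omega
  obtain ⟨R, hR, hRc⟩ := Finset.exists_subset_card_eq (hq17.trans hk)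
  have hRp : ∀ v ∈ R, p v = true ∧ cls v = k := by
    intro v hv
    have := hR hv
    rw [Finset.mem_filter, Finset.mem_filter] at this
    exact ⟨this.1.2, this.2⟩
  refine ⟨fun v => (cod k (cls v) : ℤ) + if v ∈ R then 1 else 0, ?_, ?_, ?_⟩
  · intro v
    by_cases hv : v ∈ R
    · simp only [if_pos hv]
      rw [(hRp v hv).2, cod_self]
      norm_num
    · simp only [if_neg hv]
      by_cases h : cls v = k
      · rw [h, cod_self]
        norm_num
      · have := cod_bd k _ h
        omega
  · intro u v hu hv huv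
    have hc : cls u ≠ cls v := by
      intro h
      apply huv
      simp only [cls, Prod.mk.injEq] at h
      exact h
    have h0 := cod_inj k _ _ hc
    simp only
    by_cases h1 : cls u = k
    · have h2 : cls v ≠ k := fun h => hc (h1.trans h.symm)
      have h3 : v ∉ R := fun h => h2 (hRp v h).2
      have h4 := cod_bd k _ h2
      rw [h1, cod_self, if_neg h3]
      split_ifs <;> omega
    · have h2 : u ∉ R := fun h => h1 (hRp u h).2
      rw [if_neg h2]
      have h4 := cod_bd k _ h1
      by_cases h3 : v ∈ R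
      · rw [if_pos h3, (hRp v h3).2, cod_self]
        omega
      · rw [if_neg h3]
        omega
  · have h1 : ∑ v, (if p v = true then ((cod k (cls v) : ℤ) + if v ∈ R then 1 else 0) - a v else 0) =
        T + q := by
      have h2 : ∀ v, (if p v = true then ((cod k (cls v) : ℤ) + if v ∈ R then 1 else 0) - a v else 0)
          = (if p v = true then (cod k (cls v) : ℤ) - a v else 0) + (if v ∈ R then 1 else 0) := by
        intro v
        by_cases hv : v ∈ R
        · rw [if_pos (hRp v hv).1, if_pos (hRp v hv).1, if_pos hv]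
          ring
        · rw [if_neg hv]
          split_ifs <;> ring
      rw [Finset.sum_congr rfl fun v _ => h2 v, Finset.sum_add_distrib]
      congr 1
      rw [Finset.sum_ite_mem, Finset.univ_inter, Finset.sum_const, hRc]
      simp
    show (18 : ℤ) ∣ ∑ v, (if p v = true then ((cod k (cls v) : ℤ) + if v ∈ R then 1 else 0) - a v else 0)
    rw [h1]
    omega

theorem cnt_eq {α : Type} [Fintype α] (p : α → Prop) [DecidablePred p] :
    cnt p = (univ.filter p).card := by
  unfold cnt
  congr

theorem res_row : ResStmt := by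
  intro V _ t1 t2 t3 t4 a h1 h2
  rw [cnt_eq] at h1 h2
  obtain ⟨c, hc1, hc2, hc3⟩ := side t1 t2 t3 t4 a h1
  have h2' : 136 ≤ (univ.filter fun v => (fun v => !(t1 v)) v = true).card := by
    simpa using h2
  obtain ⟨d, hd1, hd2, hd3⟩ := side (fun v => !(t1 v)) t2 t3 t4 (fun v => a v - 9) h2'
  refine ⟨fun v => if t1 v = true then c v else d v + 9, ?_, ?_, ?_⟩
  · intro u v huv hdiv
    have hcu := hc1 u
    have hcv := hc1 v
    have hdu := hd1 u
    have hdv := hd1 v
    simp only at hdiv
    cases hu : t1 u <;> cases hv : t1 v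
    · rw [hu, hv] at hdiv
      have := hd2 u v (by simp [hu]) (by simp [hv]) (fun h => huv ⟨by rw [hu, hv], h⟩)
      simp only [Bool.false_eq_true, if_false] at hdiv
      omega
    · rw [hu, hv] at hdiv
      simp only [Bool.false_eq_true, if_false, if_true] at hdiv
      omega
    · rw [hu, hv] at hdiv
      simp only [Bool.false_eq_true, if_false, if_true] at hdiv
      omega
    · rw [hu, hv] at hdiv
      have := hc2 u v hu hv (fun h => huv ⟨by rw [hu, hv], h⟩)
      simp only [if_true] at hdiv
      omega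
  · refine (congrArg _ (Finset.sum_congr rfl fun v _ => ?_)).mp hc3
    cases h : t1 v <;> simp [h]
  · refine (congrArg _ (Finset.sum_congr rfl fun v _ => ?_)).mp hd3
    cases h : t1 v
    · simp [h]
      ring
    · simp

end Pool.Agent.HEC.H41
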