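import Pool.Agent.HEC.Stmts

/-!
# Row RK1 of squad HEC: matrix determinant lemma
-/

set_option autoImplicit false

namespace Pool.Agent.HEC.H41

open Matrix Finset Pool.Agent.HEC

theorem rk1 : Rk1Stmt := by
  intro I _ _ A x a hA
  have hu : IsUnit A.det := (Matrix.isUnit_iff_isUnit_det A).mp hA.isUnit
  constructor
  · have h1 : A + a • vecMulVec x x =
        A * (1 + replicateCol Unit (a • (A⁻¹ *ᵥ x)) * replicateRow Unit x) := by
      rw [← vecMulVec_eq, Matrix.mul_add, Matrix.mul_one, Matrix.mul_vecMulVec, Matrix.mulVec_smul,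
        Matrix.mulVec_mulVec, Matrix.mul_nonsing_inv A hu, Matrix.one_mulVec]
      congr 1
      ext i j
      simp only [Matrix.smul_apply, vecMulVec_apply, smul_eq_mul, Pi.smul_apply]
      ring
    rw [h1, det_mul, det_one_add_replicateCol_mul_replicateRow, dotProduct_smul, smul_eq_mul]
  · have h2 := (hA.posSemidef.inv).dotProduct_mulVec_nonneg x
    simpa using h2

end Pool.Agent.HEC.H41
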